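import Pool.Agent.X12.Sq
import Pool.Agent.X12.Twelve

/-!
# The determinant of a sum of three Legendre-symbol matrices
-/

set_option autoImplicit false

namespace Pool.Agent.Results.MP_4f0cf1_nt.ThreeLegendreMatrices

open Matrix Finset NumberField Pool.Agent.X12

/-- The matrix of `((j+k)/p) + ((j-k)/p) + (jk/p)`, `1 ≤ j, k ≤ (p-1)/2`. -/
noncomputable def M (p : ℕ) [Fact p.Prime] : Matrix (Fin ((p - 1) / 2)) (Fin ((p - 1) / 2)) ℤ :=
  Matrix.of fun j k => legendreSym p (((j : ℤ) + 1) + ((k : ℤ) + 1)) +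
    legendreSym p (((j : ℤ) + 1) - ((k : ℤ) + 1)) + legendreSym p (((j : ℤ) + 1) * ((k : ℤ) + 1))

lemma det_mod_four {n : Type*} [Fintype n] [DecidableEq n] (B : Matrix n n ℤ)
    (h : ∀ i j, i ≠ j → 2 ∣ B i j) : 4 ∣ B.det - ∏ i, B i i := by
  rw [det_apply, ← Finset.add_sum_erase _ _ (Finset.mem_univ (1 : Equiv.Perm n))]
  simp only [Equiv.Perm.sign_one, one_smul, Equiv.Perm.one_apply, add_sub_cancel_left]
  refine Finset.dvd_sum fun σ hσ => ?_
  have hne : σ ≠ 1 := (Finset.mem_erase.1 hσ).1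
  obtain ⟨i, hi⟩ : ∃ i, σ i ≠ i := by
    by_contra hcon
    push Not at hcon
    exact hne (Equiv.ext hcon)
  have hi2 : σ (σ i) ≠ σ i := fun h' => hi (σ.injective h')
  have h4 : (4 : ℤ) ∣ ∏ j, B (σ j) j := by
    rw [← Finset.mul_prod_erase Finset.univ (fun j => B (σ j) j) (Finset.mem_univ i),
      ← Finset.mul_prod_erase (Finset.univ.erase i) (fun j => B (σ j) j)
        (Finset.mem_erase.2 ⟨hi, Finset.mem_univ (σ i)⟩), ← mul_assoc]
    apply Dvd.dvd.mul_right
    have := mul_dvd_mul (h _ _ hi) (h _ _ hi2)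
    norm_num at this
    exact this
  rw [Units.smul_def, smul_eq_mul]
  exact h4.mul_left _

section

variable {p : ℕ} [Fact p.Prime]

/-- the vector of the symbols -/
noncomputable def cv (p : ℕ) [Fact p.Prime] (n : ℕ) : Fin n → ℤ := fun j => qc p (((j : ℕ) : ZMod p) + 1)

lemma Bm_mul_trans {n : ℕ} (hn : p = 2 * n + 1) (hp : p % 4 = 3) :
    Bm p n * (Bm p n)ᵀ = (p : ℤ) • (1 : Matrix (Fin n) (Fin n) ℤ) -
      (2 : ℤ) • vecMulVec (cv p n) (cv p n) := by
  have h2 : p ≠ 2 := by omega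
  have hodd : ∀ a : ZMod p, qc p (-a) = -qc p a := fun a => by
    rw [qc_neg, qc_neg_one_of_three hp]; ring
  ext j l
  have hj := j.2
  have hl := l.2
  set a : ZMod p := ((j : ℕ) : ZMod p) + 1 with ha
  set b : ZMod p := ((l : ℕ) : ZMod p) + 1 with hb
  let f : ZMod p → ℤ := fun k => (qc p (a + k) + qc p (a - k)) * (qc p (b + k) + qc p (b - k))
  have hf : ∀ k, f (-k) = f k := by
    intro k
    show (qc p (a + -k) + qc p (a - -k)) * (qc p (b + -k) + qc p (b - -k)) = _
    rw [sub_neg_eq_add, sub_neg_eq_add, ← sub_eq_add_neg, ← sub_eq_add_neg]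
    show _ = (qc p (a + k) + qc p (a - k)) * (qc p (b + k) + qc p (b - k))
    ring
  have h1 := sum_half_even hn f hf
  have h0 : f 0 = 4 * (qc p a * qc p b) := by
    show (qc p (a + 0) + qc p (a - 0)) * (qc p (b + 0) + qc p (b - 0)) = _
    rw [add_zero, sub_zero, add_zero, sub_zero]
    ring
  have h3 : ∑ k, f k = (if a = b then 2 * (p : ℤ) else 0) := by
    have e : ∀ k, f k = qc p (k + a) * qc p (k + b) - qc p (k + a) * qc p (k + -b) -
        qc p (k + -a) * qc p (k + b) + qc p (k + -a) * qc p (k + -b) := by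
      intro k
      show (qc p (a + k) + qc p (a - k)) * (qc p (b + k) + qc p (b - k)) = _
      rw [show a - k = -(k + -a) by ring, show b - k = -(k + -b) by ring, hodd, hodd,
        add_comm a k, add_comm b k]
      ring
    rw [Finset.sum_congr rfl fun k _ => e k, Finset.sum_add_distrib, Finset.sum_sub_distrib,
      Finset.sum_sub_distrib, sum_qc_mul h2, sum_qc_mul h2, sum_qc_mul h2, sum_qc_mul h2]
    have n1 : a ≠ -b := half_ne_neg hn hj hl
    have n2 : -a ≠ b := fun h => n1 (by rw [← h]; ring)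
    rw [if_neg n1, if_neg n2]
    by_cases hab : a = b
    · rw [if_pos hab, if_pos hab, if_pos (by rw [hab])]; ring
    · rw [if_neg hab, if_neg hab, if_neg (fun h => hab (neg_injective h))]; ring
  have h4 : (Bm p n * (Bm p n)ᵀ) j l = ∑ i ∈ range n, f ((i : ZMod p) + 1) := by
    rw [Matrix.mul_apply, ← Fin.sum_univ_eq_sum_range (fun i => f ((i : ZMod p) + 1)) n]
    rfl
  have h5 : vecMulVec (cv p n) (cv p n) j l = qc p a * qc p b := rfl
  rw [h4, Matrix.sub_apply, Matrix.smul_apply (2 : ℤ), h5]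
  rw [h0, h3] at h1
  have hab : a = b ↔ j = l := by
    rw [ha, hb, half_inj hn hj hl]; exact Fin.ext_iff.symm
  by_cases h : j = l
  · rw [if_pos (hab.2 h)] at h1
    rw [h, Matrix.smul_apply, Matrix.one_apply_eq, smul_eq_mul, mul_one, smul_eq_mul]
    linarith
  · rw [if_neg (fun h' => h (hab.1 h'))] at h1
    rw [Matrix.smul_apply, Matrix.one_apply_ne h, smul_zero, smul_eq_mul]
    linarith

lemma Bm_mulVec_one {n : ℕ} (hn : p = 2 * n + 1) (hp : p % 4 = 3) :
    Bm p n *ᵥ (fun _ => 1) = -cv p n := by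
  have h2 : p ≠ 2 := by omega
  ext j
  set a : ZMod p := ((j : ℕ) : ZMod p) + 1 with ha
  have h := sum_half hn (fun k => qc p (a + k))
  have h' : ∑ k, qc p (a + k) = 0 := by
    rw [← sum_qc (p := p) h2]
    exact Equiv.sum_comp (Equiv.addLeft a) (fun k => qc p k)
  simp only [add_zero, ← sub_eq_add_neg] at h
  rw [h'] at h
  have h3 : (Bm p n *ᵥ (fun _ => 1)) j =
      ∑ i ∈ range n, (qc p (a + ((i : ZMod p) + 1)) + qc p (a - ((i : ZMod p) + 1))) := by
    rw [mulVec, dotProduct, ← Fin.sum_univ_eq_sum_range (fun i => qc p (a + ((i : ZMod p) + 1)) +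
      qc p (a - ((i : ZMod p) + 1))) n]
    refine Finset.sum_congr rfl fun k _ => ?_
    simp [Bm, ha]
  rw [h3]
  show _ = -qc p a
  linarith

lemma cv_sq {n : ℕ} (hn : p = 2 * n + 1) : cv p n ⬝ᵥ cv p n = n := by
  have h1 : ∀ j : Fin n, cv p n j * cv p n j = 1 := fun j => qc_sq (half_ne_zero hn j.2)
  rw [dotProduct, Finset.sum_congr rfl fun j _ => h1 j]
  simp

lemma det_Bm_sq {n : ℕ} (hn : p = 2 * n + 1) (hp : p % 4 = 3) (hn0 : 0 < n) :
    (Bm p n).det ^ 2 = (p : ℤ) ^ (n - 1) := by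
  have hp0 : (p : ℚ) ≠ 0 := by exact_mod_cast (Fact.out : p.Prime).ne_zero
  have h1 := congrArg Matrix.det (Bm_mul_trans hn hp)
  rw [det_mul, det_transpose, ← sq] at h1
  have h2 : (((p : ℤ) • (1 : Matrix (Fin n) (Fin n) ℤ) -
      (2 : ℤ) • vecMulVec (cv p n) (cv p n)).map (Int.castRingHom ℚ)) =
      (p : ℚ) • (1 + replicateCol Unit (fun j => (-(2 / p : ℚ)) * (cv p n j : ℚ)) *
        replicateRow Unit (fun j => (cv p n j : ℚ))) := by
    ext i j
    simp only [Matrix.map_apply, Matrix.sub_apply, Matrix.smul_apply, Matrix.add_apply, smul_eq_mul,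
      map_sub, map_mul, Matrix.mul_apply, replicateCol_apply, replicateRow_apply, vecMulVec_apply,
      Finset.univ_unique, Finset.sum_singleton, eq_intCast, Matrix.one_apply]
    split_ifs
    · push_cast; field_simp; ring
    · push_cast; field_simp; ring
  have h3 : (((Bm p n).det ^ 2 : ℤ) : ℚ) = (p : ℚ) ^ (n - 1) := by
    rw [h1]
    have h4 : ((((p : ℤ) • (1 : Matrix (Fin n) (Fin n) ℤ) -
      (2 : ℤ) • vecMulVec (cv p n) (cv p n)).det : ℤ) : ℚ) =
      (((p : ℤ) • (1 : Matrix (Fin n) (Fin n) ℤ) -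
      (2 : ℤ) • vecMulVec (cv p n) (cv p n)).map (Int.castRingHom ℚ)).det := by
      rw [← RingHom.mapMatrix_apply, ← RingHom.map_det]
      rfl
    rw [h4, h2, det_smul, Fintype.card_fin, det_one_add_replicateCol_mul_replicateRow]
    have h5 : (fun j => (cv p n j : ℚ)) ⬝ᵥ (fun j => (-(2 / p : ℚ)) * (cv p n j : ℚ)) =
        -(2 / p) * n := by
      have h6 : ((cv p n ⬝ᵥ cv p n : ℤ) : ℚ) = n := by rw [cv_sq hn]; push_cast; rfl
      rw [dotProduct] at h6 ⊢
      push_cast at h6
      rw [← h6, Finset.mul_sum]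
      refine Finset.sum_congr rfl fun j _ => ?_
      ring
    rw [h5]
    have hpn : (p : ℚ) = 2 * n + 1 := by rw [hn]; push_cast; ring
    obtain ⟨k, rfl⟩ : ∃ k, n = k + 1 := ⟨n - 1, by omega⟩
    rw [Nat.add_sub_cancel, pow_succ]
    field_simp
    push_cast at hpn ⊢
    linear_combination hpn
  exact_mod_cast h3

/-- The number of the nonresidues in the half system. -/
lemma prod_sum_cv {n : ℕ} (hn : p = 2 * n + 1) : ∃ N : ℕ, ∏ j, cv p n j = (-1) ^ N ∧
    ∑ j, cv p n j = n - 2 * N := by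
  refine ⟨(univ.filter (fun j : Fin n => cv p n j = -1)).card, ?_, ?_⟩
  · have h1 : ∀ j : Fin n, cv p n j = if cv p n j = -1 then -1 else 1 := by
      intro j
      rcases qc_cases (half_ne_zero hn j.2) with h | h
      · have h' : cv p n j = 1 := h
        rw [h', if_neg (by norm_num)]
      · have h' : cv p n j = -1 := h
        rw [h', if_pos rfl]
    rw [Finset.prod_congr rfl fun j _ => h1 j, Finset.prod_ite, Finset.prod_const, Finset.prod_const_one,
      mul_one]
  · have h1 : ∀ j : Fin n, cv p n j = 1 - 2 * (if cv p n j = -1 then 1 else 0) := by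
      intro j
      rcases qc_cases (half_ne_zero hn j.2) with h | h
      · have h' : cv p n j = 1 := h
        rw [h', if_neg (by norm_num)]; norm_num
      · have h' : cv p n j = -1 := h
        rw [h', if_pos rfl]; norm_num
    rw [Finset.sum_congr rfl fun j _ => h1 j, Finset.sum_sub_distrib, ← Finset.mul_sum,
      Finset.sum_boole]
    simp

lemma det_Bm_mod {n : ℕ} (hn : p = 2 * n + 1) :
    (4 : ℤ) ∣ (Bm p n).det - (qc p 2) ^ n * ∏ j, cv p n j := by
  have h1 := det_mod_four (Bm p n) (by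
    intro i j hij
    have hne : ((i : ℕ) : ZMod p) + 1 - (((j : ℕ) : ZMod p) + 1) ≠ 0 := by
      intro h
      apply hij
      exact Fin.ext ((half_inj hn i.2 j.2).1 (sub_eq_zero.1 h))
    have hne2 : ((i : ℕ) : ZMod p) + 1 + (((j : ℕ) : ZMod p) + 1) ≠ 0 := by
      intro h
      exact half_ne_neg hn i.2 j.2 (eq_neg_of_add_eq_zero_left h)
    simp only [Bm, of_apply]
    rcases qc_cases hne with h | h <;> rcases qc_cases hne2 with h' | h' <;> rw [h, h'] <;> norm_num)
  have h2 : ∏ i, Bm p n i i = (qc p 2) ^ n * ∏ j, cv p n j := by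
    rw [show (qc p 2) ^ n = ∏ _j : Fin n, qc p 2 by simp, ← Finset.prod_mul_distrib]
    refine Finset.prod_congr rfl fun j _ => ?_
    simp only [Bm, of_apply, sub_self, qc_zero, add_zero, cv]
    rw [← qc_mul]
    congr 1
    ring
  rw [← h2]
  exact h1

lemma qc_two_eq (hp : p ≠ 2) : qc p 2 = if p % 8 = 1 ∨ p % 8 = 7 then 1 else -1 := by
  have h1 := jacobi_qc (p := p) 2
  have hodd : Odd p := (Fact.out : p.Prime).odd_of_ne_two hp
  rw [jacobiSym.at_two hodd, ZMod.χ₈_nat_eq_if_mod_eight] at h1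
  push_cast at h1
  rw [← h1]
  have : p % 2 ≠ 0 := by
    rw [Nat.odd_iff] at hodd; omega
  rw [if_neg this]

end

/-- The determinant of `M p` for a prime `p ≡ 1 (mod 4)`, and for a prime `p ≡ 3 (mod 4)`, `p > 3`, with
`K = ℚ(√-p)`. -/
theorem result (p : ℕ) [Fact p.Prime] (h3 : 3 < p) :
    (p % 4 = 1 → (M p).det = legendreSym p 2 * (p : ℤ) ^ ((p - 5) / 4)) ∧
    (p % 4 = 3 → ∀ (K : Type) [Field K] [NumberField K], Module.finrank ℚ K = 2 →
      (∃ s : K, s ^ 2 = -(p : K)) →
      (M p).det = (-1) ^ ((classNumber K - 1) / 2) *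
        (1 - (2 - legendreSym p 2) * (classNumber K : ℤ)) * (p : ℤ) ^ ((p - 3) / 4)) := by
  have hpr := (Fact.out : p.Prime)
  have hleg : legendreSym p 2 = qc p 2 := by rw [legendre_eq]; push_cast; rfl
  refine ⟨fun hp => ?_, fun hp K _ _ hK hs => ?_⟩
  · obtain ⟨m, hm⟩ : ∃ m, p = 4 * (m + 1) + 1 := ⟨(p - 5) / 4, by omega⟩
    have hn2 : (p - 1) / 2 = 2 * (m + 1) := by omega
    have e2 : (p - 5) / 4 = m := by omega
    unfold M
    rw [hn2, e2]
    set n := 2 * (m + 1) with hndef
    have hn : p = 2 * n + 1 := by omega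
    have key := det_rank_two (Bm p n) (Um p n) (!![0, 0; 0, 1] : Matrix (Fin 2) (Fin 2) ℤ) (n : ℤ)
      (Bm_mul_Um hn hp) (Um_trans_mul hn hp)
    have h1 : (Matrix.of fun j k : Fin n => legendreSym p (((j : ℤ) + 1) + ((k : ℤ) + 1)) +
        legendreSym p (((j : ℤ) + 1) - ((k : ℤ) + 1)) + legendreSym p (((j : ℤ) + 1) * ((k : ℤ) + 1))) =
        Bm p n + Um p n * (!![0, 0; 0, 1] : Matrix (Fin 2) (Fin 2) ℤ) * (Um p n)ᵀ := by
      ext1 j k
      simp only [of_apply, legendre_eq, Matrix.add_apply, Bm, Um,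
        Matrix.mul_apply, Fin.sum_univ_two, transpose_apply, Matrix.cons_val_zero,
        Matrix.cons_val_one, Matrix.of_apply, Matrix.cons_val', Matrix.empty_val',
        Matrix.cons_val_fin_one]
      push_cast
      rw [qc_mul]
      ring
    rw [h1, key, det_Bm hn hndef hp, det_fin_two, hleg, qc_two_eq (by omega)]
    simp only [sw, Matrix.sub_apply, Matrix.smul_apply, Matrix.mul_apply, Fin.sum_univ_two,
      Matrix.of_apply, Matrix.cons_val', Matrix.cons_val_zero, Matrix.cons_val_one,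
      Matrix.empty_val', Matrix.cons_val_fin_one, smul_eq_mul, Matrix.one_apply_eq,
      Matrix.one_apply_ne (show (0 : Fin 2) ≠ 1 by decide),
      Matrix.one_apply_ne (show (1 : Fin 2) ≠ 0 by decide)]
    rw [neg_pow (p : ℤ)]
    rcases Nat.even_or_odd m with he | ho
    · have : ¬ (p % 8 = 1 ∨ p % 8 = 7) := by
        rw [Nat.even_iff] at he; omega
      rw [if_neg this, he.neg_one_pow]
      ring
    · have : (p % 8 = 1 ∨ p % 8 = 7) := by
        rw [Nat.odd_iff] at ho; omega
      rw [if_pos this, ho.neg_one_pow]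
      ring
  · obtain ⟨s, hs⟩ := hs
    obtain ⟨n, hn⟩ : ∃ n, p = 2 * n + 1 := ⟨p / 2, by omega⟩
    have hn2 : (p - 1) / 2 = n := by omega
    unfold M
    rw [hn2]
    have h1 : (Matrix.of fun j k : Fin n => legendreSym p (((j : ℤ) + 1) + ((k : ℤ) + 1)) +
        legendreSym p (((j : ℤ) + 1) - ((k : ℤ) + 1)) + legendreSym p (((j : ℤ) + 1) * ((k : ℤ) + 1))) =
        Bm p n * (1 + replicateCol Unit (fun _ => (-1 : ℤ)) * replicateRow Unit (cv p n)) := by
      rw [Matrix.mul_add, Matrix.mul_one, ← Matrix.mul_assoc]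
      ext1 j k
      have h2 := congrFun (Bm_mulVec_one hn hp) j
      rw [mulVec, dotProduct, Pi.neg_apply] at h2
      simp only [of_apply, legendre_eq, Matrix.add_apply, Matrix.mul_apply, replicateCol_apply,
        replicateRow_apply, Finset.univ_unique, Finset.sum_singleton]
      rw [← Finset.sum_mul]
      have h4 : ∑ i, Bm p n j i = -cv p n j := by
        rw [← h2]
        exact Finset.sum_congr rfl fun i _ => by ring
      rw [h4]
      simp only [cv, Bm, of_apply]
      push_cast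
      rw [qc_mul]
      ring
    rw [h1, det_mul, det_one_add_replicateCol_mul_replicateRow]
    obtain ⟨N, hN1, hN2⟩ := prod_sum_cv (p := p) hn
    have h5 : cv p n ⬝ᵥ (fun _ => (-1 : ℤ)) = -∑ j, cv p n j := by
      rw [dotProduct, ← Finset.sum_neg_distrib]
      exact Finset.sum_congr rfl fun i _ => by ring
    -- the class number formula
    have hcl := class_number_half hn hp h3 hK hs
    have hJ : ∀ k : ℕ, Pool.Agent.X11.Rot.J p k = qc p (k : ZMod p) := by
      intro k
      rw [Pool.Agent.X11.Rot.J, jacobi_qc]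
      push_cast
      rfl
    have h6 : ∑ k ∈ Icc 1 n, Pool.Agent.X11.Rot.J p k = ∑ j, cv p n j := by
      have e1 : ∑ j, cv p n j = ∑ i ∈ range n, qc p ((i : ZMod p) + 1) :=
        Fin.sum_univ_eq_sum_range (fun i => qc p ((i : ZMod p) + 1)) n
      rw [e1]
      refine Finset.sum_nbij' (fun k => k - 1) (fun i => i + 1) ?_ ?_ ?_ ?_ ?_
      · intro k hk; rw [Finset.mem_Icc] at hk; rw [Finset.mem_range]; omega
      · intro k hk; rw [Finset.mem_range] at hk; rw [Finset.mem_Icc]; omega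
      · intro k hk; rw [Finset.mem_Icc] at hk; omega
      · intro k hk; rfl
      · intro k hk
        rw [Finset.mem_Icc] at hk
        rw [hJ]
        congr 1
        rw [Nat.cast_sub hk.1]
        push_cast
        ring
    rw [h6, hN2, hJ] at hcl
    push_cast at hcl
    rw [h5, hN2, hleg]
    obtain ⟨m, hm⟩ : ∃ m, p = 4 * m + 3 := ⟨p / 4, by omega⟩
    have hnm : n = 2 * m + 1 := by omega
    have e3 : (p - 3) / 4 = m := by omega
    obtain ⟨j, hj⟩ : ∃ j : ℕ, classNumber K = 2 * j + 1 := by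
      obtain ⟨k, hk⟩ := parity_h hn (sum_val_three hp h3 hK hs)
      exact ⟨classNumber K / 2, by omega⟩
    have e4 : (classNumber K - 1) / 2 = j := by omega
    rw [e3, e4]
    have hD2 := det_Bm_sq hn hp (by omega)
    have hD4 := det_Bm_mod (p := p) hn
    rw [hN1] at hD4
    have hq2 := qc_two_eq (p := p) (by omega)
    set D := (Bm p n).det with hD
    -- the sign
    have hsign : (qc p 2) ^ n * (-1) ^ N = ((-1) ^ (j + m) : ℤ) := by
      have hnodd : Odd n := ⟨m, by omega⟩
      by_cases h8 : p % 8 = 1 ∨ p % 8 = 7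
      · rw [if_pos h8] at hq2
        rw [hq2] at hcl ⊢
        rw [one_pow, one_mul]
        have h9 : m = N + j := by
          rw [hj, hnm] at hcl
          push_cast at hcl
          omega
        rw [h9, show j + (N + j) = N + 2 * j by ring, pow_add, pow_mul]
        norm_num
      · rw [if_neg h8] at hq2
        rw [hq2] at hcl ⊢
        rw [hnodd.neg_one_pow]
        have h9 : m = N + 3 * j + 1 := by
          rw [hj, hnm] at hcl
          push_cast at hcl
          omega
        rw [h9, show j + (N + 3 * j + 1) = N + 1 + 2 * (2 * j) by ring, pow_add, pow_mul, pow_succ]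
        norm_num
    rw [hsign] at hD4
    have hpm : (4 : ℤ) ∣ (p : ℤ) ^ m - (-1) ^ m := by
      have h9 : (4 : ℤ) ∣ (p : ℤ) - (-1) := ⟨m + 1, by rw [hm]; push_cast; ring⟩
      exact h9.trans (sub_dvd_pow_sub_pow _ _ m)
    have hDval : D = (-1) ^ j * (p : ℤ) ^ m := by
      have h10 : (D - (-1) ^ j * (p : ℤ) ^ m) * (D + (-1) ^ j * (p : ℤ) ^ m) = 0 := by
        have h11 : ((-1 : ℤ) ^ j) ^ 2 = 1 := by
          rw [← pow_mul, mul_comm, pow_mul]; norm_num
        have h12 : D ^ 2 = ((p : ℤ) ^ m) ^ 2 := by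
          rw [hD2, hnm, ← pow_mul]
          congr 1
          omega
        linear_combination h12 - ((p : ℤ) ^ m) ^ 2 * h11
      rcases mul_eq_zero.1 h10 with h | h
      · linarith
      · exfalso
        have h13 : D = -((-1) ^ j * (p : ℤ) ^ m) := by linarith
        rw [h13, pow_add] at hD4
        have h14 : (4 : ℤ) ∣ -(2 * ((-1) ^ j * (-1) ^ m)) := by
          have h15 := dvd_add hD4 (hpm.mul_left ((-1) ^ j))
          refine h15.trans (dvd_of_eq ?_)
          ring
        rw [dvd_neg, ← pow_add] at h14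
        rcases neg_one_pow_eq_or ℤ (j + m) with h16 | h16 <;> rw [h16] at h14 <;> norm_num at h14
    rw [hDval]
    have hcl' : (n : ℤ) - 2 * N = (2 - qc p 2) * (classNumber K : ℤ) := hcl.symm
    rw [hcl']
    ring

end Pool.Agent.Results.MP_4f0cf1_nt.ThreeLegendreMatrices
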